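import Pool.Agent.H28.RC.Basic
import Pool.Agent.H63.HK.CS

/-! # CS: representatives of the ideal classes -/

set_option autoImplicit false

open NumberField NumberField.InfinitePlace
open scoped nonZeroDivisors

namespace Pool.Agent.H86.RC

open Pool.Agent.H28.RC Pool.Agent.H25.HK Pool.Agent.H25 Pool.Agent.H63.HK

theorem pf_CS (h : T_DU) : T_CSc := by
  intro K _ _ f hf
  choose F hF using fun c : ClassGroup (𝓞 K) => ClassGroup.mk0_surjective c
  have hFu : ∀ c, ClassGroup.mk (K := K) (FractionalIdeal.mk0 K (F c)) = c := fun c => by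
    rw [ClassGroup.mk_mk0, hF]
  obtain ⟨hd1, -, -, -, -⟩ := h K 1 one_ne_zero
  have hf0 : (f : FI K) ≠ 0 := FractionalIdeal.coeIdeal_ne_zero.mpr hf
  obtain ⟨D, hD⟩ : ∃ D : (FI K)ˣ, (D : FI K) = (f : FI K)⁻¹ * Pool.Agent.H25.HK.du K 1 :=
    ⟨Units.mk0 _ (mul_ne_zero (inv_ne_zero hf0) hd1), rfl⟩
  have key : ∀ c, Pool.Agent.H25.HK.du K
      ((f : FI K) * ((FractionalIdeal.mk0 K (F c) : (FI K)ˣ) : FI K)) =
      (((FractionalIdeal.mk0 K (F c))⁻¹ * D : (FI K)ˣ) : FI K) := by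
    intro c
    obtain ⟨-, -, h3, -, -⟩ := h K
      ((f : FI K) * ((FractionalIdeal.mk0 K (F c) : (FI K)ˣ) : FI K))
      (mul_ne_zero hf0 (Units.ne_zero _))
    rw [h3, Units.val_mul, hD, Units.val_inv_eq_inv_val, mul_inv]
    ring
  refine ⟨ClassGroup (𝓞 K), Fintype.ofFinite _,
    fun c => ((FractionalIdeal.mk0 K (F c) : (FI K)ˣ) : FI K), fun c => Units.ne_zero _, ?_, ?_⟩
  · intro I hI
    refine ⟨(ClassGroup.mk0 (nzI K I hI))⁻¹, ?_, ?_⟩
    · show Pri K _ I
      rw [pri_iff K _ I hI, hFu, mul_inv_cancel]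
    · intro c hc
      have hc' : Pri K ((FractionalIdeal.mk0 K (F c) : (FI K)ˣ) : FI K) I := hc
      rw [pri_iff K _ I hI, hFu] at hc'
      exact (inv_eq_of_mul_eq_one_right hc').symm
  · intro I hI
    refine ⟨ClassGroup.mk0 (nzI K I hI) * ClassGroup.mk (K := K) D, ?_, ?_⟩
    · show Pri K (Pool.Agent.H25.HK.du K _) I
      rw [key, pri_iff K _ I hI, map_mul, map_inv, hFu, mul_inv_rev, mul_assoc,
        mul_comm (ClassGroup.mk0 (nzI K I hI)), mul_assoc]
      simp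
    · intro c hc
      have hc' : Pri K (Pool.Agent.H25.HK.du K
        ((f : FI K) * ((FractionalIdeal.mk0 K (F c) : (FI K)ˣ) : FI K))) I := hc
      rw [key, pri_iff K _ I hI, map_mul, map_inv, hFu] at hc'
      have h5 : ClassGroup.mk0 (nzI K I hI) * ClassGroup.mk (K := K) D * c⁻¹ = 1 := by
        rw [← hc', mul_assoc, mul_comm (ClassGroup.mk (K := K) D) c⁻¹]
      exact (mul_inv_eq_one.mp h5).symm

end Pool.Agent.H86.RC
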