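import Pool.Agent.H28.RC.Basic
import Pool.Agent.H87.HK.CT

/-! # CT: continuity of the theta series with linear factors -/

set_option autoImplicit false

open NumberField NumberField.InfinitePlace NumberField.Units
  NumberField.Units.dirichletUnitTheorem MeasureTheory Set Filter Complex
open scoped nonZeroDivisors ENNReal

namespace Pool.Agent.H86.RC

open Pool.Agent.H28.RC Pool.Agent.H25.HK Pool.Agent.H25

theorem pf_CT (h : T_TH) : T_CTc := by
  intro K _ _ S M c hM hc
  rw [continuous_iff_continuousAt]
  intro y0
  have hcont : ContinuousOn (tf K S M c) {y | ∀ v, -(1 + ∑ w, |y0 w|) < y v} := by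
    unfold tf
    refine continuousOn_tsum (u := fun x : {x : K // x ∈ M} =>
      Real.exp (-Real.pi * qK K (fun _ => -(1 + ∑ w, |y0 w|) - Real.log 2) x)) ?_ (h K M hM _).1 ?_
    · intro x
      refine Continuous.continuousOn ?_
      refine continuous_const.mul (Complex.continuous_ofReal.comp
        ((continuous_ws S (x : K)).mul ?_))
      unfold qK
      fun_prop
    · intro x y hy
      rw [norm_mul, Complex.norm_real, Real.norm_eq_abs, abs_mul, abs_of_pos (Real.exp_pos _)]
      have h1 := Pool.Agent.H87.HK.qK_mono
        (y := fun _ => -(1 + ∑ w, |y0 w|) - Real.log 2) (y' := fun v => y v - Real.log 2)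
        (fun v => by
          have := hy v
          linarith) (x : K)
      have h2 := ws_exp_le S y (x : K)
      have h3 : Real.exp (-Real.pi * qK K (fun v => y v - Real.log 2) x) ≤
          Real.exp (-Real.pi * qK K (fun _ => -(1 + ∑ w, |y0 w|) - Real.log 2) x) := by
        apply Real.exp_le_exp.2
        have := Real.pi_pos
        nlinarith
      have h4 : 0 ≤ |ws K S y x| * Real.exp (-Real.pi * qK K y x) := by positivity
      calc ‖c x‖ * (|ws K S y x| * Real.exp (-Real.pi * qK K y x))
          ≤ 1 * (|ws K S y x| * Real.exp (-Real.pi * qK K y x)) :=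
            mul_le_mul_of_nonneg_right (hc x x.2) h4
        _ ≤ _ := by
            rw [one_mul]
            exact h2.trans h3
  refine hcont.continuousAt (IsOpen.mem_nhds ?_ ?_)
  · have : {y : InfinitePlace K → ℝ | ∀ v, -(1 + ∑ w, |y0 w|) < y v} =
        ⋂ v, {y | -(1 + ∑ w, |y0 w|) < y v} := by
      ext y
      simp
    rw [this]
    exact isOpen_iInter_of_finite fun v => isOpen_lt continuous_const (continuous_apply v)
  · intro v
    have h1 : |y0 v| ≤ ∑ w, |y0 w| :=
      Finset.single_le_sum (f := fun w => |y0 w|) (fun w _ => abs_nonneg _) (Finset.mem_univ v)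
    have h2 := neg_abs_le (y0 v)
    linarith

end Pool.Agent.H86.RC
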