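import Pool.Agent.H28.RC.Basic
import Pool.Agent.H48.DL.AF

/-! # LK: the `L`-function of a primitive ray class character as an `LF` -/

set_option autoImplicit false

open NumberField NumberField.InfinitePlace Complex Filter Topology
open scoped nonZeroDivisors

namespace Pool.Agent.H86.RC

open Pool.Agent.H28.RC Pool.Agent.H25.HK Pool.Agent.H25

theorem lc_conj {K : Type} [Field K] [NumberField K] (χ : RCC K) (s : ℂ) :
    (starRingEnd ℂ) (Lc χ.bar ((starRingEnd ℂ) s)) = Lc χ s := by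
  unfold Lc
  rw [Complex.conj_tsum]
  refine tsum_congr fun I => ?_
  have h0 : 0 < Ideal.absNorm I.1 := by
    rw [Nat.pos_iff_ne_zero, Ne, Ideal.absNorm_eq_zero_iff]
    exact I.2
  have h1 : (starRingEnd ℂ) ((Ideal.absNorm I.1 : ℂ) ^ (-(starRingEnd ℂ) s)) =
      (Ideal.absNorm I.1 : ℂ) ^ (-s) := by
    have h2 := Pool.Agent.H48.DL.cpow_conj_pos (c := (Ideal.absNorm I.1 : ℝ))
      (by exact_mod_cast h0) (-(starRingEnd ℂ) s)
    simpa using h2
  rw [map_mul, h1]
  congr 1
  exact Complex.conj_conj _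

theorem Z_conj' {K : Type} [Field K] [NumberField K] (χ : RCC K) (Z Z' : ℂ → ℂ) (hZ : IsZc χ Z)
    (hZ' : IsZc χ.bar Z') (s : ℂ) (hs : 0 < s.im) :
    (starRingEnd ℂ) (Z' ((starRingEnd ℂ) s)) = Z s := by
  have hU : IsOpen {s : ℂ | 0 < s.im} := isOpen_lt continuous_const Complex.continuous_im
  have h1 : AnalyticOnNhd ℂ Z {s : ℂ | 0 < s.im} :=
    DifferentiableOn.analyticOnNhd
      (fun s hs => (hZ.1 s (ne_of_gt hs)).differentiableWithinAt) hU
  have h2 : AnalyticOnNhd ℂ ((starRingEnd ℂ) ∘ Z' ∘ (starRingEnd ℂ)) {s : ℂ | 0 < s.im} :=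
    DifferentiableOn.analyticOnNhd
      (fun s hs => by
        have h3 : DifferentiableAt ℂ Z' ((starRingEnd ℂ) s) := hZ'.1 _ (by
          rw [Complex.conj_im]
          exact (neg_lt_zero.mpr hs).ne)
        exact (differentiableAt_conj_conj_iff.mpr h3).differentiableWithinAt) hU
  have hp : (⟨2, 1⟩ : ℂ) ∈ {s : ℂ | 0 < s.im} := by
    change (0:ℝ) < 1
    norm_num
  have hev : (starRingEnd ℂ) ∘ Z' ∘ (starRingEnd ℂ) =ᶠ[𝓝 (⟨2, 1⟩ : ℂ)] Z := by
    have ho : IsOpen {s : ℂ | 1 < s.re} := isOpen_lt continuous_const Complex.continuous_re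
    filter_upwards [ho.mem_nhds (show (⟨2, 1⟩ : ℂ) ∈ {s : ℂ | 1 < s.re} by
      change (1:ℝ) < 2
      norm_num)] with t ht
    have ht' : 1 < t.re := ht
    change (starRingEnd ℂ) (Z' ((starRingEnd ℂ) t)) = Z t
    rw [hZ.2 t ht', hZ'.2 _ (by rw [Complex.conj_re]; exact ht'), lc_conj]
  exact h2.eqOn_of_preconnected_of_eventuallyEq h1 (convex_halfSpace_im_gt 0).isPreconnected hp
    hev hs

theorem gS_eq {K : Type} [Field K] [NumberField K] (χ : RCC K) {s : ℂ} (hs : s.im ≠ 0) :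
    gS χ s = (Gammaℂ s * Complex.cos (Real.pi * s / 2)) ^
        (nrRealPlaces K - χ.S.card + nrComplexPlaces K) *
      (Gammaℂ s * Complex.sin (Real.pi * s / 2)) ^ (χ.S.card + nrComplexPlaces K) *
        gS χ (1 - s) := by
  unfold gS
  have h3 : Complex.cos (Real.pi * (s - 1) / 2) = Complex.sin (Real.pi * s / 2) := by
    rw [← Complex.cos_sub_pi_div_two]
    congr 1
    ring
  have e1 := Pool.Agent.H48.DL.gammaR_one hs
  have e2 := Pool.Agent.H48.DL.gammaR_two hs
  have e4 : (1 - s + 1 : ℂ) = 2 - s := by ring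
  rw [h3] at e2
  rw [← Gammaℝ_mul_Gammaℝ_add_one (1 - s), e4]
  have e3 : Gammaℂ s ^ nrComplexPlaces K =
      Gammaℝ s ^ nrComplexPlaces K * Gammaℝ (s + 1) ^ nrComplexPlaces K := by
    rw [← Gammaℝ_mul_Gammaℝ_add_one s, mul_pow]
  rw [e3, e2]
  nth_rewrite 1 2 [e1]
  rw [pow_add, pow_add]
  ring

theorem gS_ne {K : Type} [Field K] [NumberField K] (χ : RCC K) {s : ℂ} (hs : s.im ≠ 0) :
    gS χ s ≠ 0 := by
  unfold gS
  rw [← Gammaℝ_mul_Gammaℝ_add_one]
  have h1 := Pool.Agent.H48.DL.gammaR_ne hs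
  have h2 : Gammaℝ (s + 1) ≠ 0 := Pool.Agent.H48.DL.gammaR_ne (by simpa using hs)
  exact mul_ne_zero (mul_ne_zero (pow_ne_zero _ h1) (pow_ne_zero _ h2))
    (pow_ne_zero _ (mul_ne_zero h1 h2))

/-- the conductor -/
noncomputable def cnd {K : Type} [Field K] [NumberField K] (χ : RCC K) : ℝ :=
  |(discr K : ℝ)| * (Ideal.absNorm χ.f : ℝ)

theorem cnd_pos {K : Type} [Field K] [NumberField K] (χ : RCC K) : 0 < cnd χ := by
  have h1 : (discr K : ℝ) ≠ 0 := by exact_mod_cast discr_ne_zero K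
  have h2 : 0 < Ideal.absNorm χ.f := by
    rw [Nat.pos_iff_ne_zero, Ne, Ideal.absNorm_eq_zero_iff]
    exact χ.f_ne
  have h3 : (0 : ℝ) < (Ideal.absNorm χ.f : ℝ) := by exact_mod_cast h2
  exact mul_pos (abs_pos.mpr h1) h3

theorem fe_c {K : Type} [Field K] [NumberField K] (χ : RCC K) (Z Z' : ℂ → ℂ) (ε : ℂ)
    (hF : FEc χ Z Z' ε) (s : ℂ) (hs : 0 < s.im) :
    Z s * ((cnd χ : ℂ) ^ (s - 1 / 2) *
        (Gammaℂ s * Complex.cos (Real.pi * s / 2)) ^
          (nrRealPlaces K - χ.S.card + nrComplexPlaces K) *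
        (Gammaℂ s * Complex.sin (Real.pi * s / 2)) ^ (χ.S.card + nrComplexPlaces K)) =
      ε * (starRingEnd ℂ) (Z (1 - (starRingEnd ℂ) s)) := by
  obtain ⟨hZ, hZ', -, hc, -⟩ := hF
  have hs0 : s.im ≠ 0 := hs.ne'
  have hd : (cnd χ : ℂ) ≠ 0 := by exact_mod_cast (cnd_pos χ).ne'
  have h1 : (cnd χ : ℂ) ^ (s / 2) * gS χ s * Z s =
      ε * ((cnd χ : ℂ) ^ ((1 - s) / 2) * gS χ (1 - s) * Z' (1 - s)) := hc s hs0
  rw [gS_eq χ hs0] at h1
  have hg : gS χ (1 - s) ≠ 0 := gS_ne χ (by simpa using hs0)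
  have hd2 : (cnd χ : ℂ) ^ ((1 - s) / 2) ≠ 0 := by
    rw [Ne, Complex.cpow_eq_zero_iff]
    exact fun hh => hd hh.1
  have hd3 : (cnd χ : ℂ) ^ (s / 2) =
      (cnd χ : ℂ) ^ (s - 1 / 2) * (cnd χ : ℂ) ^ ((1 - s) / 2) := by
    rw [← Complex.cpow_add _ _ hd]
    congr 1
    ring
  rw [hd3] at h1
  have h2 : Z' (1 - s) = (starRingEnd ℂ) (Z (1 - (starRingEnd ℂ) s)) := by
    have h3 := Z_conj' χ Z Z' hZ hZ' (1 - (starRingEnd ℂ) s) (by simpa using hs)
    have h4 := congrArg (starRingEnd ℂ) h3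
    simpa using h4
  rw [← h2]
  refine mul_right_cancel₀ (mul_ne_zero hd2 hg) ?_
  linear_combination h1

theorem card_kap {n a b : ℕ} (h : a + b = n) :
    Nat.card {j : Fin n // (if (j : ℕ) < a then (0 : ℝ) else 1) = 0} = a ∧
    Nat.card {j : Fin n // (if (j : ℕ) < a then (0 : ℝ) else 1) = 1} = b := by
  subst h
  constructor
  · rw [Nat.card_eq_fintype_card, Fintype.card_subtype, Finset.card_filter, Fin.sum_univ_add]
    simp
  · rw [Nat.card_eq_fintype_card, Fintype.card_subtype, Finset.card_filter, Fin.sum_univ_add]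
    simp

theorem pf_LK : T_HEc → T_GWc → T_EPc → T_LKc := by
  intro hHE hGW hEP K _ _ χ
  obtain ⟨Z, Z', ε, hF⟩ := hHE K χ
  obtain ⟨-, h, h0, h1, hm, hle, hp, hser, hsp⟩ := hEP K χ
  have hS : χ.S.card ≤ nrRealPlaces K := by
    classical
    refine (Finset.card_le_univ _).trans (le_of_eq ?_)
    exact Fintype.card_congr (Equiv.refl _)
  have hn : (nrRealPlaces K - χ.S.card + nrComplexPlaces K) + (χ.S.card + nrComplexPlaces K) =
      Module.finrank ℚ K := by
    rw [← card_add_two_mul_card_eq_rank K]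
    omega
  have hd' : (cnd χ : ℂ) ≠ 0 := by exact_mod_cast (cnd_pos χ).ne'
  have hε : ‖ε‖ = 1 := hF.2.2.1
  have hε0 : ε ≠ 0 := by
    intro h
    rw [h, norm_zero] at hε
    exact zero_ne_one hε
  have hfe := fe_c χ Z Z' ε hF
  refine ⟨{ n := Module.finrank ℚ K
            h := h
            h_zero := h0
            h_one := h1
            h_mul := hm
            h_le := hle
            κ := fun j => if (j : ℕ) < nrRealPlaces K - χ.S.card + nrComplexPlaces K then 0 else 1
            κ_mem := fun j => by split_ifs <;> simp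
            A := cnd χ
            A_pos := cnd_pos χ
            ε := ε⁻¹
            norm_ε := by rw [norm_inv, hε, inv_one]
            num := Z
            den := fun _ => 1
            diff := fun s hs => ⟨hF.1.1 s hs.ne', differentiableAt_const _⟩
            growth := fun b => by
              obtain ⟨C, hC, hC1⟩ := hGW K χ Z Z' ε hF b
              refine ⟨max C 1, lt_max_of_lt_left hC, fun s hs1 hs2 => ⟨?_, ?_⟩⟩
              · refine (hC1 s hs1 hs2).trans ?_
                refine mul_le_mul (le_max_left _ _)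
                  (Real.rpow_le_rpow_of_exponent_le hs2 (le_max_left _ _))
                  (Real.rpow_nonneg (by linarith) _) (by positivity)
              · rw [norm_one]
                have e1 : (1:ℝ) ≤ max C 1 := le_max_right _ _
                have e2 : (1:ℝ) ≤ s.im ^ (max C 1) := Real.one_le_rpow hs2 (by linarith)
                nlinarith
            den_ne := fun s _ _ => one_ne_zero
            den_ge := ⟨1, one_pos, fun s _ _ => by simp⟩
            series := fun s hs1 hs2 => by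
              rw [one_mul, hF.1.2 s hs1, hser s hs1]
            fe := fun s hs => ?_ }, rfl, rfl, ?_, (card_kap hn).1, (card_kap hn).2, hp, hsp⟩
  · rw [map_one, mul_one, mul_one]
    have e1 : ∏ j : Fin (Module.finrank ℚ K), Gammaℂ s * Complex.cos (Real.pi *
        (s - ((if (j : ℕ) < nrRealPlaces K - χ.S.card + nrComplexPlaces K
          then (0:ℝ) else 1 : ℝ) : ℂ)) / 2) =
        (Gammaℂ s * Complex.cos (Real.pi * s / 2)) ^
          (nrRealPlaces K - χ.S.card + nrComplexPlaces K) *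
          (Gammaℂ s * Complex.sin (Real.pi * s / 2)) ^ (χ.S.card + nrComplexPlaces K) := by
      rw [← Pool.Agent.H48.DL.prod_split hn]
      refine Finset.prod_congr rfl fun j _ => ?_
      split_ifs with hj
      · simp
      · rw [← Complex.cos_sub_pi_div_two]
        congr 2
        push_cast
        ring
    rw [e1]
    have e2 : cexp ((s - 1 / 2) * ((Real.log (cnd χ) : ℝ) : ℂ)) = (cnd χ : ℂ) ^ (s - 1 / 2) := by
      rw [cpow_def_of_ne_zero hd', ← Complex.ofReal_log (cnd_pos χ).le]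
      congr 1
      ring
    rw [e2]
    have h3 := hfe s hs
    have h4 : (starRingEnd ℂ) (Z (1 - (starRingEnd ℂ) s)) = ε⁻¹ *
        (ε * (starRingEnd ℂ) (Z (1 - (starRingEnd ℂ) s))) := by
      rw [← mul_assoc, inv_mul_cancel₀ hε0, one_mul]
    rw [h4, ← h3]
    ring
  · intro s hs _
    exact hF.1.2 s hs

end Pool.Agent.H86.RC
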