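import Pool.Agent.H28.RC.Basic
import Pool.Agent.H94.HK.GW
import Pool.Agent.H86.RC.LK

/-! # GW: polynomial growth of the Hecke L-functions in vertical strips -/

set_option autoImplicit false

open NumberField NumberField.InfinitePlace Complex MeasureTheory Set Filter Topology
open scoped nonZeroDivisors

namespace Pool.Agent.H86.RC

open Pool.Agent.H28.RC Pool.Agent.H25.HK Pool.Agent.H25
open Pool.Agent.H94.HK (Fk Fk_bound gammaR_ratio gammaC_ratio GammaR_lower GammaC_lower half_strip)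

theorem norm_ideal_cpow {K : Type} [Field K] [NumberField K] (I : {I : Ideal (𝓞 K) // I ≠ ⊥})
    (s : ℂ) : ‖(Ideal.absNorm I.1 : ℂ) ^ (-s)‖ = (Ideal.absNorm I.1 : ℝ) ^ (-s.re) := by
  have h0 : 0 < Ideal.absNorm I.1 := by
    rw [Nat.pos_iff_ne_zero, Ne, Ideal.absNorm_eq_zero_iff]
    exact I.2
  have h1 : (0 : ℝ) < (Ideal.absNorm I.1 : ℝ) := by exact_mod_cast h0
  have h2 := norm_cpow_eq_rpow_re_of_pos h1 (-s)
  simpa using h2

/-- boundedness on vertical lines -/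
theorem lc_line {K : Type} [Field K] [NumberField K] (hEP : T_EPc) (χ : RCC K) (Z : ℂ → ℂ)
    (hZ : IsZc χ Z) (B : ℝ) (hB : 1 < B) : ∃ M : ℝ, 0 ≤ M ∧ ∀ w : ℂ, w.re = B → ‖Z w‖ ≤ M := by
  refine ⟨∑' I : {I : Ideal (𝓞 K) // I ≠ ⊥}, ‖χ.ψ I.1 * (Ideal.absNorm I.1 : ℂ) ^ (-(B : ℂ))‖,
    tsum_nonneg (fun _ => norm_nonneg _), fun w hw => ?_⟩
  have hs := (hEP K χ).1 w (by rw [hw]; exact hB)
  rw [hZ.2 w (by rw [hw]; exact hB)]
  unfold Lc
  refine (norm_tsum_le_tsum_norm hs).trans (le_of_eq ?_)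
  refine tsum_congr fun I => ?_
  rw [norm_mul, norm_mul, norm_ideal_cpow, norm_ideal_cpow, hw, ofReal_re]

theorem gammaR_ratio1 (w : ℂ) (h : w.im ≠ 0) : Gammaℝ (w + 1) = Gammaℝ (2 - w) * Fk 1 w := by
  have h1 : Gammaℝ (2 - w) ≠ 0 := Pool.Agent.H94.HK.gammaR_ne (by simpa using h)
  have h2 : Gammaℝ (w + 1) ≠ 0 := Pool.Agent.H94.HK.gammaR_ne (by simpa using h)
  have h3 := inv_Gammaℝ_two_sub (s := w) (by
    intro n hn
    apply h
    rw [hn]; simp)
  have h4 : Gammaℂ w * Complex.sin (Real.pi * w / 2) = Fk 1 w := by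
    rw [Fk]
    congr 1
    have : (Real.pi * (w - (1 : ℝ)) / 2 : ℂ) = Real.pi * w / 2 - Real.pi / 2 := by
      push_cast; ring
    rw [this, Complex.cos_sub_pi_div_two]
  rw [h4] at h3
  rw [← div_eq_mul_inv, inv_eq_one_div, div_eq_div_iff h1 h2] at h3
  rw [one_mul] at h3
  rw [h3]; ring

theorem gS_ratio {K : Type} [Field K] [NumberField K] (χ : RCC K) (w : ℂ) (h : w.im ≠ 0) :
    gS χ w = gS χ (1 - w) * (Fk 0 w ^ (nrRealPlaces K - χ.S.card) * Fk 1 w ^ χ.S.card *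
      (Fk 0 w * Fk 1 w) ^ nrComplexPlaces K) := by
  unfold gS
  have e : (1 - w) + 1 = 2 - w := by ring
  rw [e, gammaR_ratio1 w h, gammaR_ratio w h, gammaC_ratio w h]
  simp only [mul_pow]
  ring

theorem cnd_ge {K : Type} [Field K] [NumberField K] (χ : RCC K) : 1 ≤ cnd χ := by
  unfold cnd
  have h1 : (1 : ℝ) ≤ |(discr K : ℝ)| := by
    have : (1 : ℤ) ≤ |discr K| := Int.one_le_abs (discr_ne_zero K)
    exact_mod_cast this
  have h2 : (1 : ℝ) ≤ (Ideal.absNorm χ.f : ℝ) := by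
    have : 0 < Ideal.absNorm χ.f := by
      rw [Nat.pos_iff_ne_zero, Ne, Ideal.absNorm_eq_zero_iff]
      exact χ.f_ne
    exact_mod_cast this
  nlinarith

/-- the left edge -/
theorem left_edge {K : Type} [Field K] [NumberField K] (hEP : T_EPc) (χ : RCC K) (Z Z' : ℂ → ℂ)
    (ε : ℂ) (hF : FEc χ Z Z' ε) (B : ℝ) (hB : 1 < B) :
    ∃ (C : ℝ) (N : ℕ), 0 < C ∧ ∀ s : ℂ, s.re = 1 - B → 1 ≤ s.im → ‖Z s‖ ≤ C * s.im ^ N := by
  obtain ⟨hZ, hZ', hε, hfe, -⟩ := hF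
  obtain ⟨C, hC, hbd⟩ := Fk_bound B (by linarith)
  obtain ⟨m, hm⟩ := exists_nat_ge (B - 1 / 2)
  set D : ℝ := cnd χ with hD
  have hD0 : 0 < D := cnd_pos χ
  obtain ⟨M, hM0, hM⟩ := lc_line hEP χ.bar Z' hZ' B (by linarith)
  set p := nrRealPlaces K - χ.S.card with hp
  set q := χ.S.card with hq
  set r := nrComplexPlaces K with hr
  refine ⟨D ^ (B - 1 / 2) * (C ^ p * C ^ q * (C * C) ^ r) * (M + 1),
    m * p + m * q + (m + m) * r, by positivity, fun s hs1 hs2 => ?_⟩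
  set w := 1 - s with hw
  have hs : s = 1 - w := by rw [hw]; ring
  have hsim : s.im ≠ 0 := by
    intro h; rw [h] at hs2; norm_num at hs2
  have hwim : w.im ≠ 0 := by rw [hw]; simpa using hsim
  have hwre : w.re = B := by rw [hw, sub_re, one_re, hs1]; ring
  have hwabs : |w.im| = s.im := by
    rw [hw, sub_im, one_im, zero_sub, abs_neg, abs_of_pos (by linarith)]
  have hZw : ‖Z' w‖ ≤ M := hM w hwre
  have hFk : ∀ κ : ℝ, (κ = 0 ∨ κ = 1) → ‖Fk κ w‖ ≤ C * s.im ^ m := by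
    intro κ hκ
    refine (hbd κ hκ w hwre (by rw [hwabs]; exact hs2)).trans ?_
    rw [hwabs, ← Real.rpow_natCast s.im m]
    apply mul_le_mul_of_nonneg_left _ hC.le
    exact Real.rpow_le_rpow_of_exponent_le hs2 hm
  have hF0 := hFk 0 (Or.inl rfl)
  have hF1 := hFk 1 (Or.inr rfl)
  -- the Gamma factors
  have hg : ‖gS χ w‖ = ‖gS χ s‖ * (‖Fk 0 w‖ ^ p * ‖Fk 1 w‖ ^ q *
      (‖Fk 0 w‖ * ‖Fk 1 w‖) ^ r) := by
    rw [gS_ratio χ w hwim, ← hs]
    simp only [norm_mul, norm_pow, mul_pow]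
    ring
  have hgs : gS χ s ≠ 0 := gS_ne χ hsim
  have hgs0 : 0 < ‖gS χ s‖ := norm_pos_iff.mpr hgs
  -- the functional equation
  have h0 : (cnd χ : ℂ) ^ (s / 2) * gS χ s * Z s =
      ε * ((cnd χ : ℂ) ^ ((1 - s) / 2) * gS χ (1 - s) * Z' (1 - s)) := hfe s hsim
  have h1 := congrArg norm h0
  rw [← hw] at h1
  rw [norm_mul, norm_mul, norm_mul, norm_mul, norm_mul, hε, one_mul,
    norm_cpow_eq_rpow_re_of_pos hD0, norm_cpow_eq_rpow_re_of_pos hD0, hg] at h1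
  have e1 : (s / 2).re = s.re / 2 := by simp
  have e2 : (w / 2).re = w.re / 2 := by simp
  rw [e1, e2, hs1, hwre] at h1
  have hDs : 0 < D ^ ((1 - B) / 2) := Real.rpow_pos_of_pos hD0 _
  have e3 : D ^ (B / 2) = D ^ ((1 - B) / 2) * D ^ (B - 1 / 2) := by
    rw [← Real.rpow_add hD0]; congr 1; ring
  rw [e3] at h1
  have h2 : ‖Z s‖ = D ^ (B - 1 / 2) * (‖Fk 0 w‖ ^ p * ‖Fk 1 w‖ ^ q *
      (‖Fk 0 w‖ * ‖Fk 1 w‖) ^ r) * ‖Z' w‖ := by
    have h3 : D ^ ((1 - B) / 2) * ‖gS χ s‖ ≠ 0 := (mul_pos hDs hgs0).ne'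
    apply mul_left_cancel₀ h3
    rw [h1]; ring
  rw [h2]
  have hsp : 0 ≤ s.im := by linarith
  calc D ^ (B - 1 / 2) * (‖Fk 0 w‖ ^ p * ‖Fk 1 w‖ ^ q *
      (‖Fk 0 w‖ * ‖Fk 1 w‖) ^ r) * ‖Z' w‖
      ≤ D ^ (B - 1 / 2) * ((C * s.im ^ m) ^ p * (C * s.im ^ m) ^ q *
      ((C * s.im ^ m) * (C * s.im ^ m)) ^ r) * (M + 1) := by
        have : ‖Z' w‖ ≤ M + 1 := by linarith
        gcongr
    _ = _ := by
        rw [pow_add, pow_add, pow_mul, pow_mul, pow_mul, pow_add]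
        simp only [mul_pow]
        ring

/-- crude bound -/
theorem crude {K : Type} [Field K] [NumberField K] (χ : RCC K) (Z : ℂ → ℂ)
    (hb : ∀ b : ℝ, ∃ C : ℝ, ∀ s : ℂ, |s.re| ≤ b → 1 ≤ |s.im| → ‖compc χ Z s‖ ≤ C) (b : ℝ) :
    ∃ A c : ℝ, 0 ≤ A ∧ 0 ≤ c ∧ ∀ s : ℂ, |s.re| ≤ b → 1 ≤ |s.im| →
      ‖Z s‖ ≤ A * Real.exp (c * |s.im|) := by
  obtain ⟨C, hC⟩ := hb b
  obtain ⟨c₁, hc₁, h₁⟩ := GammaR_lower b
  obtain ⟨c₃, hc₃, h₃⟩ := GammaR_lower (b + 1)
  obtain ⟨c₂, hc₂, h₂⟩ := GammaC_lower b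
  set D : ℝ := cnd χ with hD
  have hD1 : 1 ≤ D := cnd_ge χ
  have hD0 : 0 < D := by linarith
  set p := nrRealPlaces K - χ.S.card with hp
  set q := χ.S.card with hq
  set r := nrComplexPlaces K with hr
  set Q : ℝ := D ^ (-b / 2) * (c₁ ^ p * c₃ ^ q * c₂ ^ r) with hQ
  have hQ0 : 0 < Q := by positivity
  refine ⟨|C| / Q, Real.pi * (p + q + r), by positivity, by positivity, fun s hs1 hs2 => ?_⟩
  have hcomp : ‖(cnd χ : ℂ) ^ (s / 2) * gS χ s * Z s‖ ≤ C := hC s hs1 hs2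
  rw [norm_mul, norm_mul, norm_cpow_eq_rpow_re_of_pos hD0] at hcomp
  have e1 : (s / 2).re = s.re / 2 := by simp
  rw [e1] at hcomp
  have h3 : D ^ (-b / 2) ≤ D ^ (s.re / 2) := by
    apply Real.rpow_le_rpow_of_exponent_le hD1
    have := (abs_le.mp hs1).1
    linarith
  have h4 : (c₁ ^ p * c₃ ^ q * c₂ ^ r) * Real.exp (-(Real.pi * (p + q + r) * |s.im|)) ≤
      ‖gS χ s‖ := by
    unfold gS
    rw [norm_mul, norm_mul, norm_pow, norm_pow, norm_pow]
    have h5 := h₁ s hs1 hs2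
    have h6 := h₂ s hs1 hs2
    have h7 := h₃ (s + 1) (by
      rw [add_re, one_re]
      refine (abs_add_le _ _).trans ?_
      rw [abs_one]
      linarith) (by rw [add_im, one_im, add_zero]; exact hs2)
    rw [add_im, one_im, add_zero] at h7
    calc (c₁ ^ p * c₃ ^ q * c₂ ^ r) * Real.exp (-(Real.pi * (p + q + r) * |s.im|))
        = (c₁ * Real.exp (-(Real.pi * |s.im|))) ^ p * (c₃ * Real.exp (-(Real.pi * |s.im|))) ^ q *
          (c₂ * Real.exp (-(Real.pi * |s.im|))) ^ r := by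
          rw [mul_pow, mul_pow, mul_pow, ← Real.exp_nat_mul, ← Real.exp_nat_mul,
            ← Real.exp_nat_mul]
          have : Real.exp (-(Real.pi * (p + q + r) * |s.im|)) =
              Real.exp (p * -(Real.pi * |s.im|)) * Real.exp (q * -(Real.pi * |s.im|)) *
                Real.exp (r * -(Real.pi * |s.im|)) := by
            rw [← Real.exp_add, ← Real.exp_add]; congr 1; ring
          rw [this]; ring
      _ ≤ _ := by gcongr
  have h7 : Q * Real.exp (-(Real.pi * (p + q + r) * |s.im|)) * ‖Z s‖ ≤ |C| := by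
    calc Q * Real.exp (-(Real.pi * (p + q + r) * |s.im|)) * ‖Z s‖
        = D ^ (-b / 2) * ((c₁ ^ p * c₃ ^ q * c₂ ^ r) *
          Real.exp (-(Real.pi * (p + q + r) * |s.im|))) * ‖Z s‖ := by rw [hQ]; ring
      _ ≤ D ^ (s.re / 2) * ‖gS χ s‖ * ‖Z s‖ := by gcongr
      _ ≤ |C| := hcomp.trans (le_abs_self C)
  have h8 : Real.exp (Real.pi * (p + q + r) * |s.im|) *
      Real.exp (-(Real.pi * (p + q + r) * |s.im|)) = 1 := by
    rw [← Real.exp_add, add_neg_cancel, Real.exp_zero]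
  rw [div_mul_eq_mul_div, le_div_iff₀ hQ0]
  calc ‖Z s‖ * Q = Real.exp (Real.pi * (p + q + r) * |s.im|) *
        (Q * Real.exp (-(Real.pi * (p + q + r) * |s.im|)) * ‖Z s‖) := by
        linear_combination (-(‖Z s‖ * Q)) * h8
    _ ≤ Real.exp (Real.pi * (p + q + r) * |s.im|) * |C| := by gcongr
    _ = _ := by ring

theorem pf_GW : T_EPc → T_GWc := by
  intro hEP K _ _ χ Z Z' ε hF b
  have hZ := hF.1
  have hb : ∀ b : ℝ, ∃ C : ℝ, ∀ s : ℂ, |s.re| ≤ b → 1 ≤ |s.im| → ‖compc χ Z s‖ ≤ C := by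
    intro b
    obtain ⟨C, hC⟩ := hF.2.2.2.2 b
    exact ⟨C, fun s h1 h2 => (hC s h1 h2).1⟩
  set B := max b 1 + 1 with hB
  have hB2 : 2 ≤ B := by have := le_max_right b 1; linarith
  have hbB : b + 1 ≤ B := by have := le_max_left b 1; linarith
  obtain ⟨C₁, N, hC₁, hl⟩ := left_edge hEP χ Z Z' ε hF B (by linarith)
  obtain ⟨A, c, hA, hc, hcr⟩ := crude χ Z hb B
  obtain ⟨M, hM0, hM⟩ := lc_line hEP χ Z hZ B (by linarith)
  set M' : ℝ := C₁ + M + A * Real.exp c + 1 with hM'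
  have hM'0 : 0 < M' := by positivity
  have hne : ∀ s : ℂ, 0 < s.im → s ^ N ≠ 0 := by
    intro s hs
    apply pow_ne_zero
    rintro rfl
    simp at hs
  have himn : ∀ s : ℂ, 1 ≤ s.im → s.im ^ N ≤ ‖s ^ N‖ := by
    intro s hs
    rw [norm_pow]
    apply pow_le_pow_left₀ (by linarith)
    exact (le_abs_self _).trans (abs_im_le_norm s)
  have hn1 : ∀ s : ℂ, 1 ≤ s.im → 1 ≤ ‖s ^ N‖ := by
    intro s hs
    exact (one_le_pow₀ hs).trans (himn s hs)
  have key := half_strip (fun s => Z s / s ^ N) (1 - B) B (by linarith)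
    (fun s hs => (hZ.1 s hs.ne').div (by fun_prop) (hne s hs)) A c
    (by
      intro s h1 h2 h3
      have h4 := hcr s (abs_le.mpr ⟨by linarith, h2⟩) (by rw [abs_of_pos (by linarith)]; exact h3)
      rw [abs_of_pos (by linarith : 0 < s.im)] at h4
      rw [norm_div]
      exact (div_le_self (norm_nonneg _) (hn1 s h3)).trans h4)
    M' hM'0
    (by
      intro s h1 h2
      rw [norm_div, div_le_iff₀ (norm_pos_iff.mpr (hne s (by linarith)))]
      calc ‖Z s‖ ≤ C₁ * s.im ^ N := hl s h1 h2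
        _ ≤ M' * ‖s ^ N‖ := by
            apply mul_le_mul _ (himn s h2) (by positivity) hM'0.le
            have : 0 ≤ A * Real.exp c := by positivity
            linarith)
    (by
      intro s h1 h2
      rw [norm_div]
      refine (div_le_self (norm_nonneg _) (hn1 s h2)).trans ?_
      have h3 : ‖Z s‖ ≤ M := hM s h1
      have : 0 ≤ A * Real.exp c := by positivity
      linarith)
    (by
      intro s h1 h2 h3
      rw [norm_div]
      refine (div_le_self (norm_nonneg _) (hn1 s h3.ge)).trans ?_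
      have h4 := hcr s (abs_le.mpr ⟨by linarith, h2⟩) (by rw [h3, abs_one])
      rw [h3, abs_one, mul_one] at h4
      linarith)
  refine ⟨max (M' * (B + 1) ^ N) N + 1, by positivity, fun s h1 h2 => ?_⟩
  have h3 := key s (by have := (abs_le.mp h1).1; linarith)
    (by have := (abs_le.mp h1).2; linarith) h2
  rw [norm_div, div_le_iff₀ (norm_pos_iff.mpr (hne s (by linarith)))] at h3
  have h4 : ‖s‖ ≤ (B + 1) * s.im := by
    calc ‖s‖ ≤ |s.re| + |s.im| := norm_le_abs_re_add_abs_im s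
      _ ≤ b + s.im := by rw [abs_of_pos (by linarith : 0 < s.im)]; linarith
      _ ≤ (B + 1) * s.im := by nlinarith
  calc ‖Z s‖ ≤ M' * ‖s ^ N‖ := h3
    _ ≤ M' * ((B + 1) * s.im) ^ N := by rw [norm_pow]; gcongr
    _ = M' * (B + 1) ^ N * s.im ^ N := by rw [mul_pow]; ring
    _ ≤ (max (M' * (B + 1) ^ N) N + 1) * s.im ^ (max (M' * (B + 1) ^ N) N + 1) := by
        apply mul_le_mul
        · have := le_max_left (M' * (B + 1) ^ N) (N : ℝ)
          linarith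
        · rw [← Real.rpow_natCast s.im N]
          apply Real.rpow_le_rpow_of_exponent_le h2
          have := le_max_right (M' * (B + 1) ^ N) (N : ℝ)
          linarith
        · positivity
        · positivity

end Pool.Agent.H86.RC
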