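import Pool.Agent.H28.RC.Targets2
import Pool.Agent.H11.HK.AE

/-! # FE0: the finite Euler product -/

set_option autoImplicit false

open NumberField NumberField.InfinitePlace Complex Filter Topology

namespace Pool.Agent.H86.RC

open Pool.Agent.H28.RC Pool.Agent.H25.HK Pool.Agent.H25 Pool.Agent.H11.HK

theorem pf_FE0 : T_LP → T_FE0 := by
  intro hLP ι _ L c B hGd hB hps s hs1 hs2
  classical
  have hn : ∀ i, (L i).num s = ∏ j, ∑' m : ℕ, (L i).h j m * (m : ℂ) ^ (-s) := fun i => by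
    rw [(L i).series s hs1 hs2, hGd.1 i, one_mul]
  have hne : ∀ i, (L i).num s ≠ 0 := fun i => by
    rw [hn]
    exact Finset.prod_ne_zero_iff.mpr fun j _ => ser_ne ((L i).h j) ((L i).h_zero j)
      ((L i).h_one j) ((L i).h_mul j) ((L i).h_le j) hs1
  have h1 : ∀ i, HasProd (fun p : Nat.Primes =>
      ∏ j, (1 - (L i).h j (p : ℕ) * ((p : ℕ) : ℂ) ^ (-s))⁻¹) ((L i).num s) := fun i => by
    rw [hn i]
    exact hasProd_prod fun j _ => ser_prod ((L i).h j) ((L i).h_zero j)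
      ((L i).h_one j) ((L i).h_mul j) ((L i).h_le j) hs1
  have h2 : HasProd (fun p : Nat.Primes =>
      ∏ i, (∏ j, (1 - (L i).h j (p : ℕ) * ((p : ℕ) : ℂ) ^ (-s))⁻¹) ^ (c i))
      (∏ i, (L i).num s ^ c i) :=
    hasProd_prod fun i _ => hasProd_zpow (h1 i) (hne i) (c i)
  have h3 : ∀ p : Nat.Primes, (p : ℕ) ∉ B →
      ∏ i, (∏ j, (1 - (L i).h j (p : ℕ) * ((p : ℕ) : ℂ) ^ (-s))⁻¹) ^ (c i) = 1 := by
    intro p hp
    have hX : ‖((p : ℕ) : ℂ) ^ (-s)‖ < 1 := by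
      rw [norm_natCast_cpow_of_pos p.2.pos, neg_re]
      exact Real.rpow_lt_one_of_one_lt_of_neg (by exact_mod_cast p.2.one_lt) (by linarith)
    exact hLP ι (fun i => (L i).n) c (fun i j => (L i).h j (p : ℕ))
      (fun i j => (L i).h_le j _) (fun k hk => hps p k p.2 hp hk) _ hX
  have h4 := hasProd_prod_of_ne_finset_one (L := SummationFilter.unconditional Nat.Primes)
    (f := fun p : Nat.Primes =>
      ∏ i, (∏ j, (1 - (L i).h j (p : ℕ) * ((p : ℕ) : ℂ) ^ (-s))⁻¹) ^ (c i))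
    (s := B.subtype Nat.Prime) (fun p hp => h3 p (fun h => hp (Finset.mem_subtype.mpr h)))
  rw [h2.unique h4]
  have h5 := Finset.prod_subtype_of_mem (s := B) (p := Nat.Prime) (fun p : ℕ =>
      ∏ i, (∏ j, (1 - (L i).h j p * (p : ℂ) ^ (-s))⁻¹) ^ (c i)) hB
  refine h5.trans (Finset.prod_congr rfl fun p _ => Finset.prod_congr rfl fun i _ => ?_)
  rw [Finset.prod_inv_distrib, inv_zpow, zpow_neg]

end Pool.Agent.H86.RC
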