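import Pool.Agent.H28.RC.Targets3

/-! # GAL: adjoining the roots of unity -/

set_option autoImplicit false
set_option linter.unusedSectionVars false

open NumberField

namespace Pool.Agent.H86.RC

open Pool.Agent.H28.RC

namespace GALaux

section base
variable {F E Ω : Type} [Field F] [NumberField F] [Field E] [NumberField E] [Field Ω]
  [NumberField Ω] [Algebra F E] [Algebra E Ω] [Algebra F Ω] [IsScalarTower F E Ω]

theorem isGalois_cyc (q : ℕ) [NeZero q] [IsGalois F E] [IsCyclotomicExtension {q} E Ω] :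
    IsGalois F Ω := by
  obtain ⟨f, hf1, hf2⟩ := IsGalois.is_separable_splitting_field F E
  have h1 : Polynomial.IsSplittingField E Ω
      ((Polynomial.X ^ q - 1 : Polynomial F).map (algebraMap F E)) := by
    have h2 := IsCyclotomicExtension.isSplittingField_X_pow_sub_one q E Ω
    simpa using h2
  have h3 : Polynomial.IsSplittingField F Ω (f * (Polynomial.X ^ q - 1 : Polynomial F)) :=
    Polynomial.IsSplittingField.mul (K := E) Ω _ _ hf1.ne_zero
      (Polynomial.X_pow_sub_C_ne_zero (NeZero.pos q) 1)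
  have h4 : Normal F Ω := Normal.of_isSplittingField (f * (Polynomial.X ^ q - 1 : Polynomial F))
  exact ⟨⟩

theorem zmod_of_pow {q : ℕ} [NeZero q] {ζ : Ω} (hζ : IsPrimitiveRoot ζ q) (a b : ZMod q)
    (h : ζ ^ a.val = ζ ^ b.val) : a = b :=
  ZMod.val_injective q (hζ.pow_inj (ZMod.val_lt a) (ZMod.val_lt b) h)

theorem coe_smul' (g : Ω ≃ₐ[F] Ω) (x : 𝓞 Ω) : ((g • x : 𝓞 Ω) : Ω) = g (x : Ω) := rfl

/-- the degree of the cyclotomic extension -/
theorem finrank_cyc (q : ℕ) [NeZero q] [IsCyclotomicExtension {q} E Ω]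
    (hq : q.Coprime (discr E).natAbs) : Module.finrank E Ω = q.totient := by
  have hζ := IsCyclotomicExtension.zeta_spec q E Ω
  set ζ := IsCyclotomicExtension.zeta q E Ω with hζdef
  have hcyc : IsCyclotomicExtension {q} ℚ (IntermediateField.adjoin ℚ {ζ}) :=
    hζ.intermediateField_adjoin_isCyclotomicExtension ℚ
  have hgal : IsGalois ℚ (IntermediateField.adjoin ℚ {ζ}) :=
    IsCyclotomicExtension.isGalois {q} ℚ _
  let i : E →ₐ[ℚ] Ω := IsScalarTower.toAlgHom ℚ E Ω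
  have e2 : E ≃ₐ[ℚ] i.fieldRange := AlgEquiv.ofInjectiveField i
  have hd : discr i.fieldRange = discr E := (NumberField.discr_eq_discr_of_algEquiv E e2).symm
  have hcop : IsCoprime (discr (IntermediateField.adjoin ℚ {ζ})) (discr i.fieldRange) := by
    rw [hd, Int.isCoprime_iff_nat_coprime, IsCyclotomicExtension.Rat.natAbs_discr q]
    refine Nat.Coprime.coprime_div_left ?_ (Nat.prod_primeFactors_pow_totient_ediv_dvd (NeZero.pos _))
    exact Nat.Coprime.pow_left _ hq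
  have hdis := NumberField.linearDisjoint_of_isGalois_isCoprime_discr Ω
    (IntermediateField.adjoin ℚ {ζ}) i.fieldRange hcop
  have htop : IntermediateField.adjoin ℚ {ζ} ⊔ i.fieldRange = ⊤ := by
    rw [eq_top_iff]
    intro x _
    have hx : x ∈ Algebra.adjoin E {ζ} := by
      rw [IsCyclotomicExtension.adjoin_primitive_root_eq_top hζ]
      trivial
    refine Algebra.adjoin_induction (p := fun x _ => x ∈ IntermediateField.adjoin ℚ {ζ} ⊔
      i.fieldRange) ?_ ?_ ?_ ?_ hx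
    · intro y hy
      have h1 : y = ζ := hy
      rw [h1]
      exact (le_sup_left : IntermediateField.adjoin ℚ {ζ} ≤ _)
        (IntermediateField.mem_adjoin_simple_self ℚ ζ)
    · intro y
      exact (le_sup_right : i.fieldRange ≤ IntermediateField.adjoin ℚ {ζ} ⊔ i.fieldRange) ⟨y, rfl⟩
    · intro y z _ _ hy hz
      exact add_mem hy hz
    · intro y z _ _ hy hz
      exact mul_mem hy hz
  have h1 := hdis.finrank_sup
  rw [htop, IsCyclotomicExtension.Rat.finrank q (IntermediateField.adjoin ℚ {ζ}),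
    IntermediateField.finrank_top',
    ← e2.toLinearEquiv.finrank_eq, ← Module.finrank_mul_finrank ℚ E Ω, mul_comm] at h1
  exact Nat.eq_of_mul_eq_mul_right (Module.finrank_pos (R := ℚ) (M := E)) h1

theorem autToPow_surj (q : ℕ) [NeZero q] [IsCyclotomicExtension {q} E Ω]
    (hq : q.Coprime (discr E).natAbs) {ζ : Ω} (hζ : IsPrimitiveRoot ζ q) :
    Function.Surjective (hζ.autToPow E) := by
  have hgal : IsGalois E Ω := IsCyclotomicExtension.isGalois {q} E Ω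
  have h1 := hζ.autToPow_injective E
  have h2 : Nat.card (Ω ≃ₐ[E] Ω) = Nat.card (ZMod q)ˣ := by
    rw [IsGalois.card_aut_eq_finrank, finrank_cyc q hq, Nat.card_eq_fintype_card,
      ZMod.card_units_eq_totient]
  have : Fintype (Ω ≃ₐ[E] Ω) := Fintype.ofFinite _
  exact ((Fintype.bijective_iff_injective_and_card _).2 ⟨h1, by
    rw [← Nat.card_eq_fintype_card, ← Nat.card_eq_fintype_card, h2]⟩).2

theorem autToPow_restrict {q : ℕ} [NeZero q] {ζ : Ω} (hζ : IsPrimitiveRoot ζ q)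
    (h : Ω ≃ₐ[E] Ω) : hζ.autToPow F (h.restrictScalars F) = hζ.autToPow E h := by
  apply Units.ext
  apply zmod_of_pow hζ
  rw [hζ.autToPow_spec F (h.restrictScalars F), hζ.autToPow_spec E h]
  rfl

theorem coprime_norm (Q : Ideal (𝓞 Ω)) (hQ : Q.IsPrime) (hQ0 : Q ≠ ⊥) (q : ℕ)
    (hq : (q : 𝓞 Ω) ∉ Q) : (Ideal.absNorm Q).Coprime q := by
  by_contra h
  obtain ⟨l, hl, h1, h2⟩ := Nat.Prime.not_coprime_iff_dvd.1 h
  have hfact : Fact l.Prime := ⟨hl⟩
  have hfin : Finite (𝓞 Ω ⧸ Q) := Ideal.finiteQuotientOfFreeOfNeBot Q hQ0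
  have h3 : l ∣ Nat.card (𝓞 Ω ⧸ Q) := by
    have := h1
    rwa [Ideal.absNorm_apply, Submodule.cardQuot_apply] at this
  obtain ⟨x, hx⟩ := exists_prime_addOrderOf_dvd_card' (G := 𝓞 Ω ⧸ Q) l h3
  have hx0 : x ≠ 0 := by
    rintro rfl
    rw [addOrderOf_zero] at hx
    exact hl.one_lt.ne hx
  have h4 : (l : 𝓞 Ω ⧸ Q) * x = 0 := by
    rw [← nsmul_eq_mul, ← hx]
    exact addOrderOf_nsmul_eq_zero x
  have h5 : (l : 𝓞 Ω ⧸ Q) = 0 := (mul_eq_zero.1 h4).resolve_right hx0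
  have h6 : (l : 𝓞 Ω) ∈ Q := by
    rw [← Ideal.Quotient.eq_zero_iff_mem]
    simpa using h5
  apply hq
  obtain ⟨k, rfl⟩ := h2
  rw [Nat.cast_mul]
  exact Ideal.mul_mem_right _ _ h6

theorem cyc_apply {q : ℕ} [NeZero q] {ζ : Ω} (hζ : IsPrimitiveRoot ζ q) (Q : Ideal (𝓞 Ω))
    (hQ : Q.IsPrime) (hQ0 : Q ≠ ⊥) (hq : (q : 𝓞 Ω) ∉ Q) (g : Ω ≃ₐ[F] Ω) (n : ℕ)
    (h : ∀ x : 𝓞 Ω, g • x - x ^ n ∈ Q) : ((hζ.autToPow F g : (ZMod q)ˣ) : ZMod q) = n := by
  have h0 : IsPrimitiveRoot (Ideal.Quotient.mk Q hζ.toInteger) q := by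
    refine hζ.toInteger_isPrimitiveRoot.idealQuotient_mk ?_ (coprime_norm Q hQ hQ0 q hq)
    rw [Ne, Ideal.absNorm_eq_one_iff]
    exact hQ.ne_top
  have h1 : g • hζ.toInteger = hζ.toInteger ^ ((hζ.autToPow F g : (ZMod q)ˣ) : ZMod q).val := by
    apply RingOfIntegers.ext
    rw [coe_smul']
    have h2 := hζ.autToPow_spec F g
    exact h2.symm.trans (map_pow (algebraMap (𝓞 Ω) Ω) hζ.toInteger _).symm
  have h2 := h hζ.toInteger
  rw [← Ideal.Quotient.eq, h1, map_pow, map_pow, (h0.isOfFinOrder (NeZero.ne _)).pow_inj_mod,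
    ← h0.eq_orderOf, ← ZMod.natCast_eq_natCast_iff', ZMod.natCast_zmod_val] at h2
  exact h2

variable [IsGalois F E]

variable (F E Ω) in
/-- restriction -/
noncomputable def rs : (Ω ≃ₐ[F] Ω) →* (E ≃ₐ[F] E) := AlgEquiv.restrictNormalHom E

theorem rs_apply (g : Ω ≃ₐ[F] Ω) (x : E) :
    algebraMap E Ω (rs F E Ω g x) = g (algebraMap E Ω x) :=
  AlgEquiv.restrictNormal_commutes g E x

theorem rs_smul (g : Ω ≃ₐ[F] Ω) (x : 𝓞 E) :
    algebraMap (𝓞 E) (𝓞 Ω) (rs F E Ω g • x) = g • algebraMap (𝓞 E) (𝓞 Ω) x := by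
  apply RingOfIntegers.ext
  rw [coe_smul']
  exact rs_apply g (x : E)

theorem rs_mem (Q : Ideal (𝓞 Ω)) (g : Ω ≃ₐ[F] Ω) (n : ℕ)
    (h : ∀ x : 𝓞 Ω, g • x - x ^ n ∈ Q) (x : 𝓞 E) :
    rs F E Ω g • x - x ^ n ∈ Q.under (𝓞 E) := by
  rw [Ideal.mem_comap, map_sub, map_pow, rs_smul]
  exact h _

theorem under_under' (Q : Ideal (𝓞 Ω)) : (Q.under (𝓞 E)).under (𝓞 F) = Q.under (𝓞 F) :=
  Ideal.under_under Q

theorem fro_rs (P : Ideal (𝓞 F)) (g : Ω ≃ₐ[F] Ω) (h : Fro P g) : Fro P (rs F E Ω g) := by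
  obtain ⟨Q, hQ, hQP, hg⟩ := h
  exact ⟨Q.under (𝓞 E), Ideal.IsPrime.under _ _, (under_under' Q).trans hQP,
    fun x => rs_mem Q g _ hg x⟩

theorem fro_ne (P : Ideal (𝓞 F)) (g : Ω ≃ₐ[F] Ω) (Q : Ideal (𝓞 Ω)) (hQP : Q.under (𝓞 F) = P)
    (hg : ∀ x : 𝓞 Ω, g • x - x ^ (Ideal.absNorm P) ∈ Q) : Q ≠ ⊥ := by
  rintro rfl
  have h1 : P = ⊥ := by
    rw [← hQP]
    exact Ideal.under_bot (𝓞 F) (𝓞 Ω)
  have h2 := hg 0
  rw [h1, Ideal.absNorm_bot, pow_zero, smul_zero, zero_sub, Ideal.mem_bot, neg_eq_zero] at h2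
  exact one_ne_zero h2

theorem not_mem_of_sup {P : Ideal (𝓞 F)} {q : ℕ} (Q : Ideal (𝓞 Ω)) (hQ : Q.IsPrime)
    (hQP : Q.under (𝓞 F) = P) (h : P ⊔ Ideal.span {(q : 𝓞 F)} = ⊤) : (q : 𝓞 Ω) ∉ Q := by
  intro hq
  have h1 : (q : 𝓞 F) ∈ P := by
    rw [← hQP, Ideal.mem_comap, map_natCast]
    exact hq
  have h2 : P ⊔ Ideal.span {(q : 𝓞 F)} = P := sup_eq_left.2 (by
    rw [Ideal.span_singleton_le_iff_mem]
    exact h1)
  rw [h2] at h
  have h3 : (Q.under (𝓞 F)).IsPrime := Ideal.IsPrime.under _ _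
  exact h3.ne_top (hQP.trans h)

/-- an automorphism which is trivial on `E` -/
noncomputable def liftE (g : Ω ≃ₐ[F] Ω) (h : rs F E Ω g = 1) : Ω ≃ₐ[E] Ω :=
  AlgEquiv.ofRingEquiv (f := g.toRingEquiv) fun x => by
    have h1 := rs_apply (E := E) g x
    rw [h] at h1
    exact h1.symm

theorem eq_one {q : ℕ} [NeZero q] [IsCyclotomicExtension {q} E Ω] {ζ : Ω}
    (hζ : IsPrimitiveRoot ζ q) (g : Ω ≃ₐ[F] Ω) (h : rs F E Ω g = 1)
    (hc : hζ.autToPow F g = 1) : g = 1 := by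
  have h1 : (liftE g h).restrictScalars F = g := by
    ext x
    rfl
  have h2 : hζ.autToPow E (liftE g h) = 1 := by
    rw [← autToPow_restrict (F := F), h1, hc]
  have h3 : liftE g h = 1 := hζ.autToPow_injective E (by rw [h2, map_one])
  rw [← h1, h3]
  ext x
  rfl

theorem ur_cyc {q : ℕ} [NeZero q] [IsCyclotomicExtension {q} E Ω] {ζ : Ω}
    (hζ : IsPrimitiveRoot ζ q) (m : Ideal (𝓞 F)) (hm : UR E m) :
    UR Ω (m * Ideal.span {(q : 𝓞 F)}) := by
  intro Q hQ hQ0 hsup g hg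
  have h1 : Q.under (𝓞 F) ⊔ m = ⊤ := by
    rw [eq_top_iff, ← hsup]
    exact sup_le_sup_left (Ideal.mul_le_left : m * Ideal.span {(q : 𝓞 F)} ≤ m) _
  have h2 : Q.under (𝓞 F) ⊔ Ideal.span {(q : 𝓞 F)} = ⊤ := by
    rw [eq_top_iff, ← hsup]
    exact sup_le_sup_left (Ideal.mul_le_right : m * Ideal.span {(q : 𝓞 F)} ≤ _) _
  have hg' : ∀ x : 𝓞 Ω, g • x - x ^ 1 ∈ Q := fun x => by rw [pow_one]; exact hg x
  have hr : rs F E Ω g = 1 := by
    refine hm (Q.under (𝓞 E)) (Ideal.IsPrime.under _ _) (mt Ideal.eq_bot_of_comap_eq_bot hQ0)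
      ?_ _ fun x => ?_
    · rw [under_under' (F := F) (E := E) Q]
      exact h1
    · have := rs_mem (E := E) Q g 1 hg' x
      rwa [pow_one] at this
  refine eq_one hζ g hr ?_
  apply Units.ext
  rw [cyc_apply hζ Q hQ hQ0 (not_mem_of_sup Q hQ rfl h2) g 1 hg', Nat.cast_one, Units.val_one]

end base

end GALaux

open GALaux

theorem pf_GAL : T_GAL := by
  intro F E _ _ _ _ _ _ q _ hq
  have hnf : NumberField (CyclotomicField q E) :=
    IsCyclotomicExtension.numberField {q} E (CyclotomicField q E)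
  have htow : IsScalarTower F E (CyclotomicField q E) := inferInstance
  have hgal : IsGalois F (CyclotomicField q E) := isGalois_cyc (E := E) q
  have hζ : IsPrimitiveRoot (IsCyclotomicExtension.zeta q E (CyclotomicField q E)) q :=
    IsCyclotomicExtension.zeta_spec q E (CyclotomicField q E)
  refine ⟨CyclotomicField q E, inferInstance, hnf, inferInstance, hgal, _, rs F E (CyclotomicField q E),
    hζ.autToPow F, hζ, ?_, ?_, fro_rs, ?_, fun m hm => ur_cyc hζ m hm⟩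
  · intro g hg
    apply Units.ext
    apply zmod_of_pow hζ
    rw [hζ.autToPow_spec F g, hg]
    have h1 := hζ.autToPow_spec F (1 : CyclotomicField q E ≃ₐ[F] CyclotomicField q E)
    rw [map_one] at h1
    exact h1.symm
  · intro u v
    obtain ⟨g0, hg0⟩ := AlgEquiv.restrictNormalHom_surjective (F := F) (K₁ := E)
      (CyclotomicField q E) u
    obtain ⟨h, hh⟩ := autToPow_surj q hq hζ ((hζ.autToPow F g0)⁻¹ * v)
    refine ⟨g0 * h.restrictScalars F, ?_, ?_⟩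
    · rw [map_mul]
      have h1 : rs F E (CyclotomicField q E) (h.restrictScalars F) = 1 := by
        ext x
        apply (algebraMap E (CyclotomicField q E)).injective
        rw [rs_apply]
        exact h.commutes x
      rw [h1, mul_one]
      exact hg0
    · rw [map_mul, autToPow_restrict, hh, mul_inv_cancel_left]
  · intro P g hF hP
    obtain ⟨Q, hQ, hQP, hg⟩ := hF
    exact cyc_apply hζ Q hQ (fro_ne P g Q hQP hg) (not_mem_of_sup Q hQ hQP hP) g _ hg

end Pool.Agent.H86.RC
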