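import Pool.Agent.H28.RC.Targets3

/-! # LFT: the norm of a ray class character -/

set_option autoImplicit false

open NumberField Filter Topology

namespace Pool.Agent.H86.RC

open Pool.Agent.H28.RC

section
variable {F L : Type} [Field F] [NumberField F] [Field L] [NumberField L] [Algebra F L]

/-- a prime containing the norm of `J` lies under a prime containing `J` -/
theorem relNorm_le_prime (P : Ideal (𝓞 F)) (hP : P.IsPrime) (J : Ideal (𝓞 L)) (hJ : J ≠ ⊥)
    (h : Ideal.relNorm (𝓞 F) J ≤ P) :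
    ∃ Q : Ideal (𝓞 L), J ≤ Q ∧ Q.comap (algebraMap (𝓞 F) (𝓞 L)) ≤ P ∧ Q.IsPrime ∧
      P ≤ Q.comap (algebraMap (𝓞 F) (𝓞 L)) := by
  induction J using UniqueFactorizationMonoid.induction_on_prime with
  | h₁ => exact absurd rfl hJ
  | h₂ x hx =>
    rw [Ideal.isUnit_iff] at hx
    rw [hx, Ideal.relNorm_top] at h
    exact absurd (top_le_iff.1 h) hP.ne_top
  | h₃ J q hJ0 hq ih =>
    have hqp : q.IsPrime := Ideal.isPrime_of_prime hq
    have hq0 : q ≠ ⊥ := hq.ne_zero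
    rw [map_mul, hP.mul_le] at h
    rcases h with h | h
    · have hu : (q.under (𝓞 F)).IsPrime := Ideal.IsPrime.under _ _
      have hu0 : q.under (𝓞 F) ≠ ⊥ := mt Ideal.eq_bot_of_comap_eq_bot hq0
      have hum : (q.under (𝓞 F)).IsMaximal := hu.isMaximal hu0
      obtain ⟨s, hs⟩ := Ideal.exists_relNorm_eq_pow_of_isPrime (R := 𝓞 F) q (q.under (𝓞 F))
      rw [hs] at h
      have h1 : q.under (𝓞 F) ≤ P := by
        rcases Nat.eq_zero_or_pos s with rfl | hs0
        · rw [pow_zero, Ideal.one_eq_top] at h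
          exact absurd (top_le_iff.1 h) hP.ne_top
        · exact hP.le_of_pow_le h
      have h2 : q.under (𝓞 F) = P := hum.eq_of_le hP.ne_top h1
      exact ⟨q, Ideal.mul_le_left, h1, hqp, h2.ge⟩
    · obtain ⟨Q, h1, h2, h3, h4⟩ := ih hJ0 h
      exact ⟨Q, Ideal.mul_le_right.trans h1, h2, h3, h4⟩

end

theorem pf_LFT : T_LFA → T_LFT := by
  intro hLFA F L _ _ _ _ _ m ψ hpc
  refine ⟨?_, ?_, ?_, ?_, ?_, ?_, ?_⟩
  · rw [Ne, Ideal.map_eq_bot_iff_of_injective (FaithfulSMul.algebraMap_injective _ _)]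
    exact hpc.ne
  · simp only [Ideal.relNorm_top]
    exact hpc.one
  · intro I J
    simp only [map_mul]
    exact hpc.mul _ _
  · simp only [Ideal.relNorm_bot]
    exact hpc.bot
  · intro I hI hIm
    refine hpc.norm _ (by rwa [Ne, Ideal.relNorm_eq_bot_iff]) ?_
    by_contra hne
    obtain ⟨P, hP, hPle⟩ := Ideal.exists_le_maximal _ hne
    obtain ⟨Q, h1, h2, h3, h4⟩ := relNorm_le_prime (L := L) P hP.isPrime I hI
      (le_sup_left.trans hPle)
    have h5 : m.map (algebraMap (𝓞 F) (𝓞 L)) ≤ Q :=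
      Ideal.map_le_iff_le_comap.2 ((le_sup_right.trans hPle).trans h4)
    exact h3.ne_top (top_le_iff.1 (hIm ▸ sup_le h1 h5))
  · intro I hI
    refine hpc.zero _ fun h => ?_
    obtain ⟨Q, hQ, hQle⟩ := Ideal.exists_le_maximal _ hI
    have h1 : Ideal.relNorm (𝓞 F) I ≤ Q.comap (algebraMap (𝓞 F) (𝓞 L)) :=
      (Ideal.relNorm_le_comap (𝓞 F) I).trans (Ideal.comap_mono (le_sup_left.trans hQle))
    have h2 : m ≤ Q.comap (algebraMap (𝓞 F) (𝓞 L)) :=
      Ideal.map_le_iff_le_comap.1 (le_sup_right.trans hQle)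
    have h3 : (⊤ : Ideal (𝓞 F)) ≤ Q.comap (algebraMap (𝓞 F) (𝓞 L)) := h ▸ sup_le h1 h2
    have h4 : (Q.comap (algebraMap (𝓞 F) (𝓞 L))).IsPrime := Ideal.IsPrime.comap _
    exact h4.ne_top (top_le_iff.1 h3)
  · intro a ha ham hpos
    obtain ⟨b, hb, hbm, hbp, hab⟩ := hLFA F L m a ham ha hpos
    simp only [hab]
    exact hpc.ray b hb hbm hbp

end Pool.Agent.H86.RC
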