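import Pool.Agent.H28.RC.Targets3

/-! # LGN: nontrivial characters -/

set_option autoImplicit false

open NumberField Filter Topology

namespace Pool.Agent.H86.RC

open Pool.Agent.H28.RC

theorem pc_norm_le {F : Type} [Field F] [NumberField F] {m : Ideal (𝓞 F)} {ψ : Ideal (𝓞 F) → ℂ}
    (h : PC m ψ) (I : Ideal (𝓞 F)) : ‖ψ I‖ ≤ 1 := by
  by_cases h0 : I = ⊥
  · rw [h0, h.bot, norm_zero]
    exact zero_le_one
  · by_cases h1 : I ⊔ m = ⊤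
    · exact (h.norm I h0 h1).le
    · rw [h.zero I h1, norm_zero]
      exact zero_le_one

theorem primes_finite {F : Type} [Field F] [NumberField F] (m : Ideal (𝓞 F)) (hm : m ≠ ⊥) :
    {P : Ideal (𝓞 F) | P.IsPrime ∧ P ≠ ⊥ ∧ m ≤ P}.Finite := by
  have h1 := (Ideal.finite_factors (R := 𝓞 F) hm).image
    (fun v : IsDedekindDomain.HeightOneSpectrum (𝓞 F) => v.asIdeal)
  refine h1.subset ?_
  rintro P ⟨hP, hP0, hmP⟩
  exact ⟨⟨P, hP, hP0⟩, Ideal.dvd_iff_le.2 hmP, rfl⟩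

theorem pf_LGN : T_PRM → T_H1 → T_LGE → T_PRC → T_LGN := by
  rintro hPRM hH1 hLGE hPRC F _ _ m ψ hpc ⟨I0, hI0, hI0m, hne⟩
  obtain ⟨χ, hmf, hχ, -⟩ := hPRM F m ψ hpc
  have h1 : χ.ψ I0 ≠ 1 := by rw [hχ I0 hI0 hI0m]; exact hne
  have h2 : χ.ψ I0 ≠ 0 := by
    rw [hχ I0 hI0 hI0m]
    intro h
    have := hpc.norm I0 hI0 hI0m
    rw [h, norm_zero] at this
    exact zero_ne_one this
  obtain ⟨C, hC⟩ := hH1 F χ ⟨I0, h2, h1⟩
  obtain ⟨C', hC'⟩ := hLGE F χ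
  obtain ⟨C'', hC''⟩ := hPRC F (fun P => (ψ P).re) (fun P => (χ.ψ P).re) 1
    {P : Ideal (𝓞 F) | P.IsPrime ∧ P ≠ ⊥ ∧ m ≤ P}
    (fun P => (Complex.abs_re_le_norm _).trans (pc_norm_le hpc P))
    (fun P => (Complex.abs_re_le_norm _).trans (rcc_norm_le χ P)) (primes_finite m hpc.ne)
    (fun P hP hP0 _ hPA => by
      have h3 : ¬ m ≤ P := fun h => hPA ⟨hP, hP0, h⟩
      have h4 : P ⊔ m = ⊤ := by
        have hmax : P.IsMaximal := hP.isMaximal hP0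
        refine hmax.1.2 _ (lt_of_le_of_ne le_sup_left fun h => h3 ?_)
        rw [h]
        exact le_sup_right
      have h5 : χ.ψ P = ψ P := hχ P hP0 h4
      show (ψ P).re = (χ.ψ P).re
      rw [h5])
  refine ⟨Real.log (max C 1) + C' + C'', ?_⟩
  have h3 : ∀ᶠ s : ℝ in 𝓝[>] 1, 1 < s := eventually_mem_nhdsWithin
  have h4 : ∀ᶠ s : ℝ in 𝓝[>] 1, s < 2 :=
    mem_nhdsWithin_of_mem_nhds (Iio_mem_nhds (by norm_num : (1:ℝ) < 2))
  filter_upwards [h3, h4] with s hs hs2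
  obtain ⟨h5, h6⟩ := hC' s hs
  have h7 := hC'' s hs
  have h8 : Real.log ‖Lc χ s‖ ≤ Real.log (max C 1) :=
    Real.log_le_log (norm_pos_iff.2 h5) ((hC s hs hs2.le).trans (le_max_left _ _))
  have h9 := (abs_le.1 h6).2
  have h10 := (abs_le.1 h7).2
  linarith

end Pool.Agent.H86.RC
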