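import Pool.Agent.H70.RC.Targets

/-! PNT: from functions to trees. -/

set_option autoImplicit false

namespace Pool.Agent.H86.RC

open Pool.Agent.H70.RC

theorem pf_PNT : T_PNT := by
  intro V t c g h
  induction h with
  | pure c a => exact ⟨PT.leaf a, Nat.zero_le _, trivial, fun X => rfl⟩
  | ask c F g g0 g1 hF h0 h1 hg1 hg0 ih0 ih1 =>
    obtain ⟨P0, hd0, hs0, he0⟩ := ih0
    obtain ⟨P1, hd1, hs1, he1⟩ := ih1
    refine ⟨PT.node F P0 P1, ?_, ⟨hF, hs0, hs1⟩, fun X => ?_⟩
    · exact Nat.add_le_add_right (max_le hd0 hd1) 1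
    · by_cases hX : DNF.Sat X F
      · rw [hg1 X hX, ← he1 X]
        simp only [PT.eval, hX, if_true]
      · rw [hg0 X hX, ← he0 X]
        simp only [PT.eval, hX, if_false]

end Pool.Agent.H86.RC
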